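import Pool.Agent.helper15.DH.Spec
import Pool.Agent.helper78.ED.LV
import Pool.Agent.helper93.ED.WG

/-! # Project dh, module DUA -/

set_option autoImplicit false

open Complex MeasureTheory

namespace Pool.Agent.DH

open Pool.Agent.helper84.DM Pool.Agent.helper78.ED

theorem DUA_term (M τ : ℝ) (hM : 1 ≤ M) :
    HasSum (fun n : ℕ => (wg M n : ℂ) * (n : ℂ) ^ (-((τ : ℂ) * I))) (SS M 0 τ) := by
  have h0 : SS M 0 τ = ∑' n : ℕ, (wg M n : ℂ) * (n : ℂ) ^ (-((τ : ℂ) * I)) := by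
    unfold SS
    simp
  rw [h0]
  refine Summable.hasSum ?_
  obtain ⟨_, _, hw⟩ := wg_sum
  refine Summable.of_norm_bounded (g := fun n => wg M n) (hw M hM).1 fun n => ?_
  rcases Nat.eq_zero_or_pos n with rfl | hn
  · simp [wg]
  · rw [norm_mul, Complex.norm_real, Real.norm_eq_abs, abs_of_nonneg (LV_wg_nonneg M n)]
    have : ‖(n : ℂ) ^ (-((τ : ℂ) * I))‖ = 1 := by
      rw [Complex.norm_natCast_cpow_of_pos hn]
      simp
    rw [this, mul_one]

theorem DUA (hRID : RID_stmt) : DUA_stmt := by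
  intro Z c M A B hc hM hA hB
  have hBn : ∀ y ∈ B, 1 ≤ y := fun y hy => by
    rcases Nat.eq_zero_or_pos y with h | h
    · exact absurd (h ▸ hy) hB
    · exact h
  set total : ℂ := ∑ ρ ∈ Z, ∑ ρ' ∈ Z, c ρ * (starRingEnd ℂ) (c ρ') *
        (SS M 0 (ρ.im - ρ'.im) * (starRingEnd ℂ) (PL B (ρ.im - ρ'.im))) with htotal
  have hs : HasSum (fun x : ℕ => ∑ ρ ∈ Z, ∑ ρ' ∈ Z, c ρ * (starRingEnd ℂ) (c ρ') *
        (((wg M x : ℂ) * (x : ℂ) ^ (-(((ρ.im - ρ'.im : ℝ) : ℂ) * I))) *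
          (starRingEnd ℂ) (PL B (ρ.im - ρ'.im)))) total :=
      hasSum_sum fun ρ _ => hasSum_sum fun ρ' _ =>
        ((DUA_term M (ρ.im - ρ'.im) hM).mul_right _).mul_left _
  have hfun : (fun x : ℕ => ((wg M x * ∑ y ∈ B, ‖RR Z c x y‖ ^ 2 : ℝ) : ℂ)) =
      (fun x : ℕ => ∑ ρ ∈ Z, ∑ ρ' ∈ Z, c ρ * (starRingEnd ℂ) (c ρ') *
        (((wg M x : ℂ) * (x : ℂ) ^ (-(((ρ.im - ρ'.im : ℝ) : ℂ) * I))) *
          (starRingEnd ℂ) (PL B (ρ.im - ρ'.im)))) := by
    funext x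
    rcases Nat.eq_zero_or_pos x with rfl | hx
    · simp [wg]
    · rw [Complex.ofReal_mul, Complex.ofReal_sum]
      rw [Finset.sum_congr rfl fun y hy => hRID Z c x y hx (hBn y hy)]
      rw [Finset.sum_comm, Finset.mul_sum]
      refine Finset.sum_congr rfl fun ρ _ => ?_
      rw [Finset.sum_comm, Finset.mul_sum]
      refine Finset.sum_congr rfl fun ρ' _ => ?_
      unfold PL
      rw [map_sum, Finset.mul_sum, Finset.mul_sum, Finset.mul_sum]
      refine Finset.sum_congr rfl fun y _ => ?_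
      ring
  rw [← hfun] at hs
  have hre : HasSum (fun x : ℕ => wg M x * ∑ y ∈ B, ‖RR Z c x y‖ ^ 2) total.re := by
    have := Complex.hasSum_re hs
    simp only [Complex.ofReal_re] at this
    exact this
  have h4 := sum_le_hasSum A (fun n _ => mul_nonneg (LV_wg_nonneg M n)
    (Finset.sum_nonneg fun _ _ => by positivity)) hre
  refine h4.trans ((Complex.re_le_norm _).trans ?_)
  rw [htotal]
  refine (norm_sum_le _ _).trans (Finset.sum_le_sum fun ρ _ => ?_)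
  refine (norm_sum_le _ _).trans (Finset.sum_le_sum fun ρ' _ => ?_)
  rw [norm_mul, norm_mul, norm_mul, RCLike.norm_conj, RCLike.norm_conj]
  have := mul_le_mul (hc ρ) (hc ρ') (norm_nonneg _) zero_le_one
  rw [mul_one] at this
  calc ‖c ρ‖ * ‖c ρ'‖ * (‖SS M 0 (ρ.im - ρ'.im)‖ * ‖PL B (ρ.im - ρ'.im)‖)
      ≤ 1 * (‖SS M 0 (ρ.im - ρ'.im)‖ * ‖PL B (ρ.im - ρ'.im)‖) :=
        mul_le_mul_of_nonneg_right this (by positivity)
    _ = _ := one_mul _

end Pool.Agent.DH
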