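import Pool.Agent.helper57.DH.SpecL

/-! # d2:LGB (MP_5823cb): bad points of the third kind. -/

set_option autoImplicit false

open Filter Topology MeasureTheory
open scoped commutatorElement

namespace Pool.Agent.helper90.DH

open Pool.Agent.helper64.D2

theorem LGB_cheb (g : ℝ → ℝ) (hg : BM g) (hg2 : BM (fun x => g x * g x)) (hI : ∀ f, BM f → Integrable f) (a : ℝ) (ha : 0 < a) :
    volume.real {x | a < |g x|} ≤ 1 / a ^ 2 * nsq g := by
  have h1 := mul_meas_ge_le_integral_of_nonneg (μ := volume) (f := fun x => g x * g x) (Filter.Eventually.of_forall (fun x => mul_self_nonneg (g x))) (hI _ hg2) (a ^ 2)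
  have h2 : volume.real {x | a < |g x|} ≤ volume.real {x | a ^ 2 ≤ g x * g x} := by
    apply measureReal_mono
    · intro x hx
      simp only [Set.mem_setOf_eq] at hx ⊢
      have : |g x| ^ 2 = g x * g x := by rw [sq_abs]; ring
      rw [← this]
      exact pow_le_pow_left₀ ha.le hx.le 2
    · apply ne_of_lt
      apply lt_of_le_of_lt (measure_mono (show {x | a ^ 2 ≤ g x * g x} ⊆ Set.Icc (0 : ℝ) 1 by
        intro x hx
        by_contra h
        simp only [Set.mem_setOf_eq] at hx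
        rw [hg.2.2 x h] at hx
        have : 0 < a ^ 2 := by positivity
        linarith))
      exact measure_Icc_lt_top
  have h3 : nsq g = ∫ x, g x * g x := by
    unfold nsq
    apply integral_congr_ae
    exact Filter.Eventually.of_forall (fun x => by simp only [pow_two])
  rw [h3, one_div, ← div_eq_inv_mul, le_div_iff₀ (by positivity), mul_comm]
  exact (mul_le_mul_of_nonneg_left h2 (by positivity)).trans h1

theorem LGB_set (g : ℕ → ℝ → ℝ) (hg : ∀ s, BM (g s)) (a : ℝ) (ha : 0 < a) (S1 N : ℕ) :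
    MeasurableSet {x | ∃ s, S1 ≤ s ∧ s < N ∧ a < |g s x|} ∧ {x | ∃ s, S1 ≤ s ∧ s < N ∧ a < |g s x|} ⊆ Set.Icc (0 : ℝ) 1 := by
  have h1 : {x | ∃ s, S1 ≤ s ∧ s < N ∧ a < |g s x|} = ⋃ s ∈ Finset.Ico S1 N, {x | a < |g s x|} := by
    ext x
    simp only [Set.mem_setOf_eq, Set.mem_iUnion, Finset.mem_Ico, exists_prop, and_assoc]
  constructor
  · rw [h1]
    apply Finset.measurableSet_biUnion
    intro s _
    exact measurableSet_lt measurable_const ((hg s).1.abs)
  · rintro x ⟨s, -, -, hs⟩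
    by_contra h
    rw [(hg s).2.2 x h, abs_zero] at hs
    linarith

theorem LGB_meas (g : ℕ → ℝ → ℝ) (hg : ∀ s, BM (g s)) (hg2 : ∀ s, BM (fun x => g s x * g s x)) (hI : ∀ f, BM f → Integrable f) (a : ℝ) (ha : 0 < a) (S1 N : ℕ) (b : ℕ → ℝ)
    (hb : ∀ s, S1 ≤ s → s < N → nsq (g s) ≤ b s) :
    volume.real {x | ∃ s, S1 ≤ s ∧ s < N ∧ a < |g s x|} ≤ 1 / a ^ 2 * ∑ s ∈ Finset.Ico S1 N, b s := by
  have h1 : {x | ∃ s, S1 ≤ s ∧ s < N ∧ a < |g s x|} = ⋃ s ∈ Finset.Ico S1 N, {x | a < |g s x|} := by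
    ext x
    simp only [Set.mem_setOf_eq, Set.mem_iUnion, Finset.mem_Ico, exists_prop, and_assoc]
  rw [h1]
  refine (measureReal_biUnion_finset_le _ _).trans ?_
  rw [Finset.mul_sum]
  apply Finset.sum_le_sum
  intro s hs
  rw [Finset.mem_Ico] at hs
  refine (LGB_cheb (g s) (hg s) (hg2 s) hI a ha).trans ?_
  exact mul_le_mul_of_nonneg_left (hb s hs.1 hs.2) (by positivity)

theorem LGB (hLFV : LFV_stmt) (hLJV : LJV_stmt) (hFGA : FGA_stmt) (hLBM : LBM_stmt) (hLCS : LCS_stmt) (hLEA : LEA_stmt) (hLEB : LEB_stmt) (hLLV : LLV_stmt) (hLEP : LEP_stmt) : LGB_stmt := by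
  intro th hth
  obtain ⟨K1, hK1, hJV⟩ := hLJV
  obtain ⟨K2, hK2, hFV⟩ := hLFV
  obtain ⟨K3, hK3, hFG⟩ := hFGA
  obtain ⟨hB1, hB2, hB3, hB4, hB5, hB6⟩ := hLBM
  obtain ⟨hE1, hE2, hE3, hE4, hE5, hE6, hE7⟩ := hLEA
  obtain ⟨e0, he0⟩ := pow_unbounded_of_one_lt (128 * K1 / th) (by norm_num : (1 : ℝ) < 2)
  have he1 : 32 * K1 / 2 ^ (e0 + 2) ≤ th / 4 := by
    rw [div_le_iff₀ (by positivity)]
    rw [div_lt_iff₀ hth] at he0
    have : (2 : ℝ) ^ e0 ≤ 2 ^ (e0 + 2) := pow_le_pow_right₀ (by norm_num) (by omega)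
    nlinarith
  have hI : ∀ f, BM f → Integrable f := fun f hf => (hB2 1 f hf).2.2
  refine ⟨e0 + 2, 1 / (th / 4) ^ 2 * (K2 + K3 * K1), by omega, by positivity, ?_⟩
  set e := e0 + 2 with he
  intro lam q c s0 S1 N L hlam hlam2 hs0 hS1 hc hgap y hy hysup hy2
  have hLLy := hLLV y hy
  -- the increments
  have hD1 : ∀ s, BM (Ds s y) := fun s => (hLLy.1 s).2.1
  have hD2 : ∀ s, PA (s + 1) (Ds s y) := fun s => (hLLy.1 s).1
  have hD3 : ∀ s x, Es s (Ds s y) x = 0 := fun s => (hLLy.1 s).2.2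
  have hD4 : ∀ s, 10 ≤ s → S3 (Ds s y) := fun s hs => (hLLy.2.2.2 s hs).2.1 hysup
  have hD5 : ∀ s x, |Ds s y x| ≤ 16 := by
    intro s x
    have h1 := hLEB.2.1 (s + 1) y 2 hy hy2 x
    have h2 := hLEB.2.1 s y 2 hy hy2 x
    unfold Ds
    have h3 := abs_sub (Es (s + 1) y x) (Es s y x)
    linarith
  have hLg : 1 ≤ Lg lam := by
    unfold Lg
    have : 0 ≤ Real.log (1 / lam) := Real.log_nonneg (by rw [le_div_iff₀ hlam]; linarith)
    linarith
  have hsumD : ∑ s ∈ Finset.Ico S1 N, nsq (Ds s y) ≤ nsq y := by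
    rcases Nat.lt_or_ge N S1 with h | h
    · rw [Finset.Ico_eq_empty (by omega), Finset.sum_empty]
      exact integral_nonneg (fun x => sq_nonneg _)
    · refine le_trans ?_ (hLLy.2.1 s0 N (by omega)).2.2.2.2.2
      apply Finset.sum_le_sum_of_subset_of_nonneg
      · exact Finset.Ico_subset_Ico_left hS1
      · intro s _ _
        exact integral_nonneg (fun x => sq_nonneg _)
  -- first family
  set v : ℕ → ℝ → ℝ := fun s z => fr s z * Ds s y z with hv
  have hvB : ∀ s, BM (v s) := fun s => (hB4 s (Ds s y) (hD1 s)).2.2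
  have hMv : ∀ s, BM (Mop q c (v s)) := fun s => hB6 q c (v s) (hvB s)
  have hMv2 : ∀ s, BM (fun x => Mop q c (v s) x * Mop q c (v s) x) := fun s => (hB1 _ _ (hMv s) (hMv s)).2.2
  -- second family
  set J : ℕ → ℝ → ℝ := fun s => JV s e (Ds s y) with hJ
  have hJall : ∀ s, 10 ≤ s → BM (J s) ∧ PA (s + e) (J s) ∧ S4 (J s) ∧ (∀ x, 0 ≤ J s x) ∧ nsq (J s) ≤ K1 / 2 ^ e * nsq (Ds s y) ∧
      ∀ B : ℝ, (∀ x, |Ds s y x| ≤ B) → (∀ x, |Es s (J s) x| ≤ K1 * B / 2 ^ e) ∧
      ∀ (q : ℕ) (c : ℕ → DD) (x x' : ℝ), (∀ i < q, Sz (c i) (1 / 100)) → |x - x'| ≤ 1 / 2 ^ (s + e + 1) →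
      |Mop q c (fun z => fr s z * Ds s y z) x - Mop q c (fun z => fr s z * Ds s y z) x'| ≤ Mop q c (JV s e (Ds s y)) x' + K1 * B / 2 ^ e :=
    fun s hs => hJV s e (Ds s y) (by omega) hs (hD2 s) (hD4 s hs)
  set w : ℕ → ℝ → ℝ := fun s x => if 10 ≤ s then J s x - Es s (J s) x else 0 with hw
  have hw10 : ∀ s, 10 ≤ s → w s = fun x => J s x - Es s (J s) x := by
    intro s hs
    funext x
    simp only [hw, if_pos hs]
  have hwB : ∀ s, BM (w s) := by
    intro s
    by_cases hs : 10 ≤ s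
    · rw [hw10 s hs]
      exact (hB1 _ _ (hJall s hs).1 (hB4 s _ (hJall s hs).1).1).2.1
    · have : w s = fun _ => 0 := by
        funext x
        simp only [hw, if_neg hs]
      rw [this]
      exact ⟨measurable_const, ⟨0, fun x => by simp⟩, fun x _ => rfl⟩
  have hMw : ∀ s, BM (Mop q c (w s)) := fun s => hB6 q c (w s) (hwB s)
  have hMw2 : ∀ s, BM (fun x => Mop q c (w s) x * Mop q c (w s) x) := fun s => (hB1 _ _ (hMw s) (hMw s)).2.2
  have h4 : 0 < th / 4 := by positivity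
  obtain ⟨hG1m, hG1s⟩ := LGB_set (fun s => Mop q c (v s)) hMv (th / 4) h4 S1 N
  obtain ⟨hG2m, hG2s⟩ := LGB_set (fun s => Mop q c (w s)) hMw (th / 4) h4 S1 N
  refine ⟨{x | ∃ s, S1 ≤ s ∧ s < N ∧ th / 4 < |Mop q c (v s) x|} ∪ {x | ∃ s, S1 ≤ s ∧ s < N ∧ th / 4 < |Mop q c (w s) x|}, hG1m.union hG2m, Set.union_subset hG1s hG2s, ?_, ?_⟩
  · -- measure
    have hny : 0 ≤ nsq y := integral_nonneg (fun x => sq_nonneg _)
    have hLL : lam ^ 2 * Lg lam ≤ (lam * Lg lam) ^ 2 := by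
      have h1 : 0 ≤ lam ^ 2 * Lg lam := by positivity
      nlinarith
    have hm1 := LGB_meas (fun s => Mop q c (v s)) hMv hMv2 hI (th / 4) h4 S1 N (fun s => K2 * ((lam * Lg lam) ^ 2 + 1 / 4 ^ (S1 - s0) + 1 / 16 ^ L) * nsq (Ds s y)) (by
      intro s hs1 hs2
      have h1 := hFV lam q c s0 s L hlam hlam2 hs0 (by omega) hc (fun r hr1 hr2 => hgap r hr1 (by omega)) (Ds s y) (hD2 s) (hD4 s (by omega)) (hD3 s)
      refine h1.trans ?_
      apply mul_le_mul_of_nonneg_right _ (integral_nonneg (fun x => sq_nonneg _))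
      apply mul_le_mul_of_nonneg_left _ (by linarith)
      have h2 : (1 : ℝ) / 4 ^ (s - s0) ≤ 1 / 4 ^ (S1 - s0) := one_div_le_one_div_of_le (by positivity) (pow_le_pow_right₀ (by norm_num) (by omega))
      linarith)
    have hm2 := LGB_meas (fun s => Mop q c (w s)) hMw hMw2 hI (th / 4) h4 S1 N (fun s => K3 * K1 * (lam * Lg lam) ^ 2 * nsq (Ds s y)) (by
      intro s hs1 hs2
      have hs10 : 10 ≤ s := by omega
      have hJs := hJall s hs10
      have hPA : PA (s + e) (w s) := by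
        intro k
        obtain ⟨a1, b1, h1⟩ := hJs.2.1 k
        obtain ⟨a2, b2, h2⟩ := hE1 s (s + e) (Es s (J s)) (by omega) (hE2 s (J s)) k
        refine ⟨a1 - a2, b1 - b2, ?_⟩
        intro x hx
        rw [hw10 s hs10]
        show J s x - Es s (J s) x = _
        rw [h1 x hx, h2 x hx]
        ring
      have hS2 : S2 (w s) := by
        intro x hx
        rw [hw10 s hs10]
        show J s x - Es s (J s) x = 0
        have h1 : J s x = 0 := hJs.2.2.1 x (fun h => hx ⟨by linarith [h.1], by linarith [h.2]⟩)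
        have hpw : (1 : ℝ) / 2 ^ s ≤ 1 / 1024 := by
          apply one_div_le_one_div_of_le (by norm_num)
          calc (1024 : ℝ) = 2 ^ 10 := by norm_num
            _ ≤ 2 ^ s := pow_le_pow_right₀ (by norm_num) hs10
        have h2 : Es s (J s) x = 0 := hLEB.2.2 s (J s) (23 / 100) (77 / 100) hJs.2.2.1 x (fun h => hx ⟨by linarith [h.1], by linarith [h.2]⟩)
        rw [h1, h2, sub_zero]
      have hE0 : ∀ x, Es s0 (w s) x = 0 := by
        intro x
        rw [hw10 s hs10]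
        rw [(hE4 s0 (J s) (Es s (J s)) hJs.1 (hB4 s _ hJs.1).1 x).2, (hE6 s0 s (J s) hJs.1 (by omega) x).1, sub_self]
      have h1 := hFG lam q c s0 (N + L + e) hlam hlam2 hs0 hc hgap (w s) (s + e) (by omega) hPA hS2 hE0
      have h2 : nsq (w s) ≤ nsq (J s) := by
        have h3 := hLEP.2.1 s (J s) hJs.1
        rw [hw10 s hs10]
        have h4 : 0 ≤ nsq (Es s (J s)) := integral_nonneg (fun x => sq_nonneg _)
        linarith
      have h3 : nsq (J s) ≤ K1 * nsq (Ds s y) := by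
        refine hJs.2.2.2.2.1.trans ?_
        apply mul_le_mul_of_nonneg_right _ (integral_nonneg (fun x => sq_nonneg _))
        exact div_le_self (by linarith) (one_le_pow₀ (by norm_num))
      have hnD : 0 ≤ nsq (Ds s y) := integral_nonneg (fun x => sq_nonneg _)
      calc nsq (Mop q c (w s)) ≤ K3 * lam ^ 2 * Lg lam * nsq (w s) := h1
        _ ≤ K3 * lam ^ 2 * Lg lam * (K1 * nsq (Ds s y)) := mul_le_mul_of_nonneg_left (h2.trans h3) (by positivity)
        _ = K3 * K1 * nsq (Ds s y) * (lam ^ 2 * Lg lam) := by ring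
        _ ≤ K3 * K1 * nsq (Ds s y) * ((lam * Lg lam) ^ 2) := mul_le_mul_of_nonneg_left hLL (by positivity)
        _ = K3 * K1 * (lam * Lg lam) ^ 2 * nsq (Ds s y) := by ring)
    refine (measureReal_union_le _ _).trans ?_
    rw [← Finset.mul_sum] at hm1 hm2
    have hc0 : 0 ≤ 1 / (th / 4) ^ 2 := by positivity
    have hX : 0 ≤ (lam * Lg lam) ^ 2 := sq_nonneg _
    have hY : (0 : ℝ) ≤ 1 / 4 ^ (S1 - s0) := by positivity
    have hZ : (0 : ℝ) ≤ 1 / 16 ^ L := by positivity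
    calc _ ≤ 1 / (th / 4) ^ 2 * (K2 * ((lam * Lg lam) ^ 2 + 1 / 4 ^ (S1 - s0) + 1 / 16 ^ L) * ∑ s ∈ Finset.Ico S1 N, nsq (Ds s y)) +
          1 / (th / 4) ^ 2 * (K3 * K1 * (lam * Lg lam) ^ 2 * ∑ s ∈ Finset.Ico S1 N, nsq (Ds s y)) := add_le_add hm1 hm2
      _ ≤ 1 / (th / 4) ^ 2 * (K2 * ((lam * Lg lam) ^ 2 + 1 / 4 ^ (S1 - s0) + 1 / 16 ^ L) * nsq y) +
          1 / (th / 4) ^ 2 * (K3 * K1 * ((lam * Lg lam) ^ 2 + 1 / 4 ^ (S1 - s0) + 1 / 16 ^ L) * nsq y) := by
        apply add_le_add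
        · apply mul_le_mul_of_nonneg_left _ hc0
          exact mul_le_mul_of_nonneg_left hsumD (by positivity)
        · apply mul_le_mul_of_nonneg_left _ hc0
          apply mul_le_mul _ hsumD (Finset.sum_nonneg (fun s _ => integral_nonneg (fun x => sq_nonneg _))) (by positivity)
          apply mul_le_mul_of_nonneg_left _ (by positivity)
          linarith
      _ = 1 / (th / 4) ^ 2 * (K2 + K3 * K1) * ((lam * Lg lam) ^ 2 + 1 / 4 ^ (S1 - s0) + 1 / 16 ^ L) * nsq y := by ring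
  · -- the cells
    intro s x hs1 hs2 hx x' hx'
    have hs10 : 10 ≤ s := by omega
    have hJs := hJall s hs10
    have hdist : |x - x'| ≤ 1 / 2 ^ (s + e + 1) := by
      have hp : (0 : ℝ) < 2 ^ (s + e + 1) := by positivity
      simp only [cell, ci, Set.mem_Ico] at hx'
      have h1 := (div_le_iff₀ hp).1 hx'.1
      have h2 := (lt_div_iff₀ hp).1 hx'.2
      have h3 := Int.floor_le ((2 : ℝ) ^ (s + e + 1) * x)
      have h5 := Int.lt_floor_add_one ((2 : ℝ) ^ (s + e + 1) * x)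
      rw [le_div_iff₀ hp]
      rcases abs_cases (x - x') with h | h
      · rw [h.1]; nlinarith
      · rw [h.1]; nlinarith
    have hkey := (hJs.2.2.2.2.2 16 (hD5 s)).2 q c x x' hc hdist
    have hEs := (hJs.2.2.2.2.2 16 (hD5 s)).1
    -- decomposition of M J
    have hdec : Mop q c (J s) x' = Mop q c (w s) x' + Mop q c (Es s (J s)) x' := by
      unfold Mop
      rw [← add_div, ← Finset.sum_add_distrib]
      congr 1
      apply Finset.sum_congr rfl
      intro i _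
      rw [hw10 s hs10]
      show J s _ = J s _ - Es s (J s) _ + Es s (J s) _
      ring
    have hME : |Mop q c (Es s (J s)) x'| ≤ K1 * 16 / 2 ^ e := by
      unfold Mop
      rw [abs_div, Nat.abs_cast]
      rcases Nat.eq_zero_or_pos q with hq | hq
      · rw [hq]; simp; positivity
      · have hq' : (0 : ℝ) < q := by exact_mod_cast hq
        rw [div_le_iff₀ hq']
        refine (Finset.abs_sum_le_sum_abs _ _).trans ?_
        calc ∑ i ∈ Finset.range q, |Es s (J s) (ev (c i) x')| ≤ ∑ _i ∈ Finset.range q, K1 * 16 / 2 ^ e := Finset.sum_le_sum (fun i _ => hEs _)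
          _ = K1 * 16 / 2 ^ e * q := by rw [Finset.sum_const, Finset.card_range, nsmul_eq_mul]; ring
    have h5 : Mop q c (J s) x' ≤ |Mop q c (w s) x'| + K1 * 16 / 2 ^ e := by
      rw [hdec]
      have := le_abs_self (Mop q c (w s) x')
      have := le_abs_self (Mop q c (Es s (J s)) x')
      linarith
    have h6 : K1 * 16 / 2 ^ e + K1 * 16 / 2 ^ e = 32 * K1 / 2 ^ e := by ring
    have h7 : |Mop q c (v s) x| ≤ |Mop q c (v s) x'| + |Mop q c (v s) x - Mop q c (v s) x'| := by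
      have := abs_add_le (Mop q c (v s) x') (Mop q c (v s) x - Mop q c (v s) x')
      rwa [add_sub_cancel] at this
    by_contra hno
    rw [Set.mem_union, not_or] at hno
    have h8 : |Mop q c (v s) x'| ≤ th / 4 := by
      by_contra h; push Not at h; exact hno.1 ⟨s, hs1, hs2, h⟩
    have h9 : |Mop q c (w s) x'| ≤ th / 4 := by
      by_contra h; push Not at h; exact hno.2 ⟨s, hs1, hs2, h⟩
    have h10 : th < |Mop q c (v s) x| := hx
    have h11 : |Mop q c (v s) x - Mop q c (v s) x'| ≤ Mop q c (J s) x' + K1 * 16 / 2 ^ e := hkey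
    linarith

end Pool.Agent.helper90.DH
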