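import Pool.Agent.helper57.DH.SpecL

/-! # d2:LNF (MP_5823cb): the maximal function estimate for one window. -/

set_option autoImplicit false

open Filter Topology MeasureTheory
open scoped commutatorElement

namespace Pool.Agent.helper90.DH

open Pool.Agent.helper64.D2

theorem LNF_mem (s : ℕ) (x : ℝ) : x ∈ cell s (ci s x) := by
  have hp : (0 : ℝ) < 2 ^ s := by positivity
  simp only [cell, ci, Set.mem_Ico]
  exact ⟨(div_le_iff₀ hp).2 (by linarith [Int.floor_le ((2 : ℝ) ^ s * x)]), (lt_div_iff₀ hp).2 (by linarith [Int.lt_floor_add_one ((2 : ℝ) ^ s * x)])⟩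

/-- nested cells -/
theorem LNF_nest (s j : ℕ) (x : ℝ) (hsj : s ≤ j) : cell j (ci j x) ⊆ cell s (ci s x) := by
  intro z hz
  have hp : (0 : ℝ) < 2 ^ s := by positivity
  have hpj : (0 : ℝ) < 2 ^ j := by positivity
  have hx := LNF_mem j x
  simp only [cell, ci, Set.mem_Ico] at hz hx ⊢
  have hz1 := (div_le_iff₀ hpj).1 hz.1
  have hz2 := (lt_div_iff₀ hpj).1 hz.2
  set k := ⌊(2 : ℝ) ^ s * x⌋ with hk
  set l := ⌊(2 : ℝ) ^ j * x⌋ with hl
  have h2 : (2 : ℝ) ^ j = 2 ^ s * 2 ^ (j - s) := by rw [← pow_add]; congr 1; omega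
  have hk1 : (k : ℝ) ≤ 2 ^ s * x := Int.floor_le _
  have hk2 : 2 ^ s * x < k + 1 := Int.lt_floor_add_one _
  -- k * 2^(j-s) ≤ l and l + 1 ≤ (k+1) * 2^(j-s)
  have h3 : k * 2 ^ (j - s) ≤ l := by
    apply Int.le_floor.2
    push_cast
    rw [h2]
    have hpp : (0 : ℝ) < 2 ^ (j - s) := by positivity
    nlinarith
  have h4 : l + 1 ≤ (k + 1) * 2 ^ (j - s) := by
    have : l < (k + 1) * 2 ^ (j - s) := by
      apply Int.floor_lt.2
      push_cast
      rw [h2]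
      have hpp : (0 : ℝ) < 2 ^ (j - s) := by positivity
      nlinarith
    omega
  have h3r : (k : ℝ) * 2 ^ (j - s) ≤ l := by exact_mod_cast h3
  have h4r : (l : ℝ) + 1 ≤ (k + 1) * 2 ^ (j - s) := by exact_mod_cast h4
  have hpp : (0 : ℝ) < 2 ^ (j - s) := by positivity
  rw [h2] at hz1 hz2
  constructor
  · rw [div_le_iff₀ hp]
    by_contra hcon
    push Not at hcon
    nlinarith
  · rw [lt_div_iff₀ hp]
    by_contra hcon
    push Not at hcon
    nlinarith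

theorem LNF_vol (s : ℕ) (k : ℤ) : volume.real (cell s k) = 1 / 2 ^ s := by
  unfold cell
  rw [Real.volume_real_Ico_of_le]
  · ring
  · have hp : (0 : ℝ) < 2 ^ s := by positivity
    exact div_le_div_of_nonneg_right (by linarith) hp.le

theorem LNF (hLGA : LGA_stmt) (hLGB : LGB_stmt) (hLUN : LUN_stmt) (hLLO : LLO_stmt) (hLBM : LBM_stmt) : LNF_stmt := by
  intro th r hth hr
  obtain ⟨eA, AA, heA, hAA, hA⟩ := hLGA th hth
  obtain ⟨eB, AB, heB, hAB, hB⟩ := hLGB th hth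
  set e' : ℕ := max eA eB + 2 with he'
  have hX1 : (1 : ℝ) ≤ (2 * r + 1) * 2 ^ (e' + 1) := by
    have : (1 : ℝ) ≤ 2 ^ (e' + 1) := one_le_pow₀ (by norm_num)
    nlinarith
  refine ⟨e', (2 * r + 1) * 2 ^ (e' + 1) * ((AA + AB) * 192), by positivity, ?_⟩
  intro lam q c s0 w0 S1 N y hlam hlam2 hws hs10 hw1 hrw hS1 hN hNI hgap hPA hysup hy2 κ
  obtain ⟨y', hy'1, hy'2, hy'3, hy'4, hy'5⟩ := hLLO q s0 w0 N c y κ hws hs10 hw1 hN hNI hPA hysup hy2
  have hc : ∀ i < q, Sz (c i) (1 / 100) := fun i hi => (hNI i hi).1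
  have hBM : BM y' := hLBM.2.2.1 N y' hy'1 (fun x hx => hy'2 x (fun h => hx ⟨by linarith [h.1], by linarith [h.2]⟩))
  obtain ⟨GA, hGA1, hGA2, hGA3, hGA4⟩ := hA lam q c s0 N hlam hlam2 hs10 hN hc (fun s h1 h2 => hgap s h1 (by omega)) y' hBM hy'2 hy'3
  obtain ⟨GB, hGB1, hGB2, hGB3, hGB4⟩ := hB lam q c s0 S1 N w0 hlam hlam2 hs10 hS1 hc (fun s h1 h2 => hgap s h1 (by omega)) y' hBM hy'2 hy'3
  have hGm : MeasurableSet (GA ∪ GB) := hGA1.union hGB1
  have hGs : GA ∪ GB ⊆ Set.Icc 0 1 := Set.union_subset hGA2 hGB2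
  set Q : ℝ := (lam * Lg lam) ^ 2 + 1 / 4 ^ (S1 - s0) + 1 / 16 ^ w0 with hQ
  have hQ0 : 0 ≤ Q := by positivity
  have hny : 0 ≤ nsq y' := integral_nonneg (fun x => sq_nonneg _)
  have hvG : volume.real (GA ∪ GB) ≤ (AA + AB) * 192 * Q * (2 ^ w0 / 2 ^ s0) := by
    refine (measureReal_union_le _ _).trans ?_
    have h1 : AA * (lam * Lg lam) ^ 2 * nsq y' ≤ AA * Q * nsq y' := by
      apply mul_le_mul_of_nonneg_right _ hny
      apply mul_le_mul_of_nonneg_left _ hAA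
      have h2 : (0 : ℝ) ≤ 1 / 4 ^ (S1 - s0) := by positivity
      have h3 : (0 : ℝ) ≤ 1 / 16 ^ w0 := by positivity
      rw [hQ]; linarith
    calc volume.real GA + volume.real GB ≤ AA * Q * nsq y' + AB * Q * nsq y' := add_le_add (hGA3.trans h1) hGB3
      _ = (AA + AB) * Q * nsq y' := by ring
      _ ≤ (AA + AB) * Q * (192 * 2 ^ w0 / 2 ^ s0) := mul_le_mul_of_nonneg_left hy'4 (by positivity)
      _ = (AA + AB) * 192 * Q * (2 ^ w0 / 2 ^ s0) := by ring
  -- bad points give small cells in G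
  have hbad : ∀ (s : ℕ) (x : ℝ), s0 ≤ s → s < N → x ∈ BdS q c s0 S1 th y' s → cell (s + e') (ci (s + e') x) ⊆ GA ∪ GB := by
    intro s x hs1 hs2 hx
    rcases hx with h | h | h
    · refine (LNF_nest (s + eA + 1) (s + e') x (by omega)).trans ?_
      exact (hGA4 s x hs1 hs2.le h).trans Set.subset_union_left
    · refine (LNF_nest (s + 1 + eA + 1) (s + e') x (by omega)).trans ?_
      exact (hGA4 (s + 1) x (by omega) hs2 h).trans Set.subset_union_left
    · refine (LNF_nest (s + eB + 1) (s + e') x (by omega)).trans ?_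
      exact (hGB4 s x h.1 hs2 h.2).trans Set.subset_union_right
  have hGfin : volume (GA ∪ GB) ≠ ⊤ := ne_of_lt (lt_of_le_of_lt (measure_mono hGs) measure_Icc_lt_top)
  constructor
  · intro s x hs1 hs2 hx hxb
    have h1 : x ∈ BdS q c s0 S1 th y' s := (hy'5 x x hx (by rw [sub_self, abs_zero]; positivity) s S1 th hs1).1 hxb
    have h2 := hbad s x hs1 hs2 h1
    have h3 := measureReal_mono h2 hGfin
    rw [LNF_vol] at h3
    refine h3.trans (hvG.trans ?_)
    have h4 : 0 ≤ (AA + AB) * 192 * Q * (2 ^ w0 / 2 ^ s0) := by positivity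
    calc (AA + AB) * 192 * Q * (2 ^ w0 / 2 ^ s0) ≤ (2 * r + 1) * 2 ^ (e' + 1) * ((AA + AB) * 192 * Q * (2 ^ w0 / 2 ^ s0)) := le_mul_of_one_le_left h4 hX1
      _ = _ := by ring
  · set A : ℕ → Set ℤ := fun s => {k | (cell s k ∩ BdS q c s0 S1 th y' s).Nonempty} with hAdef
    have hsub : (⋃ s ∈ Set.Ico s0 N, Nb r s {k | (cell s k ∩ BdS q c s0 S1 th y s).Nonempty}) ∩ cell (s0 - w0 - 4) κ ⊆ ⋃ s ∈ Set.Ico s0 N, Nb r s (A s) := by
      rintro x0 ⟨hx0, hx0c⟩
      simp only [Set.mem_iUnion] at hx0 ⊢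
      obtain ⟨s, hs, k, ⟨x, hxk, hxb⟩, h1, h2⟩ := hx0
      refine ⟨s, hs, k, ⟨x, hxk, ?_⟩, h1, h2⟩
      refine (hy'5 x x0 hx0c ?_ s S1 th hs.1).1 hxb
      have hp : (0 : ℝ) < 2 ^ s := by positivity
      have hp0 : (0 : ℝ) < 2 ^ s0 := by positivity
      simp only [cell, Set.mem_Ico] at hxk
      have h3 := (div_le_iff₀ hp).1 hxk.1
      have h4 := (lt_div_iff₀ hp).1 hxk.2
      rw [div_le_iff₀ hp] at h1
      rw [le_div_iff₀ hp] at h2
      have h5 : |x - x0| * 2 ^ s ≤ r + 1 := by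
        rcases abs_cases (x - x0) with h | h
        · rw [h.1]; nlinarith
        · rw [h.1]; nlinarith
      have h6 : (2 : ℝ) ^ s0 ≤ 2 ^ s := pow_le_pow_right₀ (by norm_num) hs.1
      rw [le_div_iff₀ hp0]
      have h7 : |x - x0| * 2 ^ s0 ≤ |x - x0| * 2 ^ s := mul_le_mul_of_nonneg_left h6 (abs_nonneg _)
      nlinarith
    have hcond : ∀ s, s0 ≤ s → s < N → ∀ k ∈ A s, ∃ x ∈ cell s k, cell (s + e') (ci (s + e') x) ⊆ GA ∪ GB := by
      intro s hs1 hs2 k hk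
      obtain ⟨x, hx1, hx2⟩ := hk
      exact ⟨x, hx1, hbad s x hs1 hs2 hx2⟩
    have hfin : volume (⋃ s ∈ Set.Ico s0 N, Nb r s (A s)) ≠ ⊤ := by
      have hb : (⋃ s ∈ Set.Ico s0 N, Nb r s (A s)) ⊆ Set.Icc (-(r + 1)) (r + 2) := by
        intro x0 hx0
        simp only [Set.mem_iUnion] at hx0
        obtain ⟨s, hs, k, hk, h1, h2⟩ := hx0
        obtain ⟨x, hx1, hx2⟩ := hcond s hs.1 hs.2 k hk
        have hx3 : x ∈ Set.Icc (0 : ℝ) 1 := hGs (hx2 (LNF_mem (s + e') x))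
        have hp : (0 : ℝ) < 2 ^ s := by positivity
        have hp1 : (1 : ℝ) ≤ 2 ^ s := one_le_pow₀ (by norm_num)
        simp only [cell, Set.mem_Ico] at hx1
        have h3 := (div_le_iff₀ hp).1 hx1.1
        have h4 := (lt_div_iff₀ hp).1 hx1.2
        rw [div_le_iff₀ hp] at h1
        rw [le_div_iff₀ hp] at h2
        obtain ⟨h5, h6⟩ := hx3
        constructor
        · by_contra hcon
          push Not at hcon
          nlinarith
        · by_contra hcon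
          push Not at hcon
          nlinarith
      exact ne_of_lt (lt_of_le_of_lt (measure_mono hb) measure_Icc_lt_top)
    refine (measureReal_mono hsub hfin).trans ?_
    refine (hLUN r s0 N e' (GA ∪ GB) A hr hGm hGs hcond).trans ?_
    calc (2 * r + 1) * 2 ^ (e' + 1) * volume.real (GA ∪ GB) ≤ (2 * r + 1) * 2 ^ (e' + 1) * ((AA + AB) * 192 * Q * (2 ^ w0 / 2 ^ s0)) := mul_le_mul_of_nonneg_left hvG (by positivity)
      _ = _ := by ring

end Pool.Agent.helper90.DH
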