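import Pool.Agent.helper52.HY.Spec
import Pool.Agent.helper25.HY.MOB

set_option autoImplicit false

open Complex Metric Set Filter Topology MeasureTheory
open Pool.Agent.helper98.ILF Pool.Agent.helper16.Multibrot

noncomputable section

namespace DHX

open HY (UD T S hd UN RM fz)

/-- a univalent map from the disc to the plane. -/
structure UV (X : ℂ → ℂ) : Prop where
  dif : DifferentiableOn ℂ X UD
  inj : InjOn X UD

/-- the Schwarz factor of `z ↦ z ^ n`. -/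
def kap (n : ℕ) (s : ℝ) : ℝ := n * s ^ (n - 1) * (1 - s ^ 2) / (1 - s ^ (2 * n))

theorem ud {x : ℂ} : x ∈ UD ↔ ‖x‖ < 1 := HY.MOB_mem

theorem ud_open : IsOpen UD := isOpen_ball

theorem S_map {a : ℂ} (ha : a ∈ UD) : MapsTo (S a) UD UD := fun _ hx => ud.2 (HY.MOB_S_lt (ud.1 ha) (ud.1 hx))

theorem S_dif {a : ℂ} (ha : a ∈ UD) : DifferentiableOn ℂ (S a) UD := fun _ hx =>
  (HY.MOB_derivS (ud.1 ha) (ud.1 hx)).differentiableAt.differentiableWithinAt

theorem S_inj {a : ℂ} (ha : a ∈ UD) : InjOn (S a) UD := by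
  intro x hx y hy hxy
  rw [← HY.MOB_TS (ud.1 ha) (ud.1 hx), ← HY.MOB_TS (ud.1 ha) (ud.1 hy), hxy]

theorem S_zero (a : ℂ) : S a 0 = a := by unfold S; simp

theorem pow_map {n : ℕ} (hn : n ≠ 0) : MapsTo (fun x : ℂ => x ^ n) UD UD := by
  intro x hx
  rw [ud] at hx ⊢
  show ‖x ^ n‖ < 1
  rw [norm_pow]
  exact pow_lt_one₀ (norm_nonneg _) hx hn

/-- one step of the tube. -/
theorem step (hLR : MPS.LR_stmt) (hRMI : HY.RMI_stmt) (n : ℕ) (c : ℂ) (hn : 2 ≤ n) (X : ℂ → ℂ) (hX : UV X) (p : ℂ)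
    (hp : fz n c p = X 0) :
    ∃ (X' h : ℂ → ℂ), UV X' ∧ X' 0 = p ∧ DifferentiableOn ℂ h UD ∧ MapsTo h UD UD ∧ h 0 = 0 ∧
      (∀ y ∈ UD, fz n c (X' y) = X (h y)) ∧
      (‖deriv h 0‖ = 1 ∨ ∃ q ∈ UD, X q = c ∧ ∃ ψ : ℂ → ℂ, UV ψ ∧ ψ 0 = 0 ∧ (∀ y ∈ UD, fz n c (ψ y) ∈ X '' UD) ∧
        ∃ y₀ ∈ UD, ψ y₀ = p ∧ ‖deriv h 0‖ = kap n ‖y₀‖) := by
  have hn0 : n ≠ 0 := by omega
  have h0 : (0 : ℂ) ∈ UD := by rw [ud]; simp
  by_cases hc : ∃ q ∈ UD, X q = c
  · obtain ⟨q, hq, hXq⟩ := hc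
    have hφ : RM (X '' UD) c (fun y => X (S q y)) := by
      refine ⟨hX.dif.comp (S_dif hq) (S_map hq), ?_, ?_, ?_⟩
      · intro x hx y hy hxy
        exact S_inj hq hx hy (hX.inj (S_map hq hx) (S_map hq hy) hxy)
      · ext z
        constructor
        · rintro ⟨x, hx, rfl⟩
          exact ⟨S q x, S_map hq hx, rfl⟩
        · rintro ⟨x, hx, rfl⟩
          refine ⟨T q x, ud.2 (HY.MOB_T_lt (ud.1 hq) (ud.1 hx)), ?_⟩
          show X (S q (T q x)) = X x
          rw [HY.MOB_ST (ud.1 hq) (ud.1 hx)]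
      · show X (S q 0) = c
        rw [S_zero, hXq]
    obtain ⟨ψ, hψ, hrel⟩ := hRMI n c (X '' UD) _ hn hφ
    have hpV : p ∈ ψ '' UD := by
      rw [hψ.img]
      show fz n c p ∈ X '' UD
      rw [hp]
      exact ⟨0, h0, rfl⟩
    obtain ⟨y₀, hy₀, hψy₀⟩ := hpV
    have hψU : UV ψ := ⟨hψ.dif, hψ.inj⟩
    have hy0n : y₀ ^ n ∈ UD := pow_map hn0 hy₀
    have hSq : S q (y₀ ^ n) = 0 := by
      apply hX.inj (S_map hq hy0n) h0
      have := hrel y₀ hy₀
      rw [hψy₀, hp] at this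
      exact this.symm
    have hyq : y₀ ^ n = -q := by
      have h1 := HY.MOB_TS (ud.1 hq) (ud.1 hy0n)
      rw [hSq] at h1
      rw [← h1]
      unfold T
      simp
    have hD : HasDerivAt (fun y => S q ((S y₀ y) ^ n)) (((1 - (‖q‖ : ℂ) ^ 2) / (1 + (starRingEnd ℂ) q * (y₀ ^ n)) ^ 2) *
        (n * y₀ ^ (n - 1) * ((1 - (‖y₀‖ : ℂ) ^ 2) / (1 + (starRingEnd ℂ) y₀ * 0) ^ 2))) 0 := by
      have h1 := HY.MOB_derivS (ud.1 hy₀) (ud.1 h0)
      have h2 := h1.pow n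
      have h3 := HY.MOB_derivS (ud.1 hq) (ud.1 hy0n)
      have h4 : HasDerivAt (S q) ((1 - (‖q‖ : ℂ) ^ 2) / (1 + (starRingEnd ℂ) q * (y₀ ^ n)) ^ 2) ((S y₀ 0) ^ n) := by
        rw [S_zero]; exact h3
      have h5 := HasDerivAt.comp (0 : ℂ) h4 h2
      rw [S_zero] at h5
      exact h5
    have hq1 : ‖q‖ = ‖y₀‖ ^ n := by
      rw [← norm_neg, ← hyq, norm_pow]
    refine ⟨fun y => ψ (S y₀ y), fun y => S q ((S y₀ y) ^ n), ⟨hψ.dif.comp (S_dif hy₀) (S_map hy₀), ?_⟩, ?_, ?_, ?_, ?_, ?_, ?_⟩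
    · intro x hx y hy hxy
      exact S_inj hy₀ hx hy (hψ.inj (S_map hy₀ hx) (S_map hy₀ hy) hxy)
    · show ψ (S y₀ 0) = p
      rw [S_zero, hψy₀]
    · refine (S_dif hq).comp ((S_dif hy₀).pow n) ?_
      intro y hy
      exact pow_map hn0 (S_map hy₀ hy)
    · intro y hy
      exact S_map hq (pow_map hn0 (S_map hy₀ hy))
    · show S q ((S y₀ 0) ^ n) = 0
      rw [S_zero, hSq]
    · intro y hy
      exact hrel _ (S_map hy₀ hy)
    · right
      refine ⟨q, hq, hXq, ψ, hψU, hψ.val, ?_, y₀, hy₀, hψy₀, ?_⟩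
      · intro y hy
        rw [hrel y hy]
        exact ⟨_, S_map hq (pow_map hn0 hy), rfl⟩
      · rw [hD.deriv]
        have e1 : (1 : ℂ) + (starRingEnd ℂ) q * (y₀ ^ n) = 1 - (‖q‖ : ℂ) ^ 2 := by
          rw [hyq, ← HY.MOB_cc]; ring
        rw [e1, mul_zero, add_zero, one_pow, div_one]
        have hne : (1 : ℂ) - (‖q‖ : ℂ) ^ 2 ≠ 0 := HY.MOB_one (ud.1 hq)
        have hqr : ‖(1 : ℂ) - (‖q‖ : ℂ) ^ 2‖ = 1 - ‖q‖ ^ 2 := by
          have : (1 : ℂ) - (‖q‖ : ℂ) ^ 2 = ((1 - ‖q‖ ^ 2 : ℝ) : ℂ) := by push_cast; ring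
          rw [this, Complex.norm_real, Real.norm_eq_abs, abs_of_nonneg]
          have := ud.1 hq
          nlinarith [norm_nonneg q]
        have hyr : ‖(1 : ℂ) - (‖y₀‖ : ℂ) ^ 2‖ = 1 - ‖y₀‖ ^ 2 := by
          have : (1 : ℂ) - (‖y₀‖ : ℂ) ^ 2 = ((1 - ‖y₀‖ ^ 2 : ℝ) : ℂ) := by push_cast; ring
          rw [this, Complex.norm_real, Real.norm_eq_abs, abs_of_nonneg]
          have := ud.1 hy₀
          nlinarith [norm_nonneg y₀]
        have hq2 : 0 < 1 - ‖q‖ ^ 2 := by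
          have := ud.1 hq
          nlinarith [norm_nonneg q]
        rw [norm_mul, norm_div, norm_pow, norm_mul, norm_mul, norm_pow, hqr, hyr, Complex.norm_natCast]
        unfold kap
        have e2 : ‖y₀‖ ^ (2 * n) = ‖q‖ ^ 2 := by rw [hq1, ← pow_mul, mul_comm]
        rw [e2]
        field_simp
  · push Not at hc
    have hne : ∀ y ∈ UD, X y - c ≠ 0 := fun y hy => sub_ne_zero.2 (hc y hy)
    obtain ⟨E, hEd, hE0, hEn⟩ := hLR n UD (fun y => X y - c) 0 p (by omega) ud_open (convex_ball _ _)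
      (hX.dif.sub_const c) hne h0 (by rw [← hp]; unfold fz; ring)
    have hEr : ∀ y ∈ UD, fz n c (E y) = X y := by
      intro y hy
      unfold fz
      rw [hEn y hy]; ring
    refine ⟨E, id, ⟨hEd, ?_⟩, hE0, differentiableOn_id, fun y hy => hy, rfl, hEr, Or.inl (by simp)⟩
    intro x hx y hy hxy
    apply hX.inj hx hy
    rw [← hEr x hx, ← hEr y hy, hxy]

/-- THE TUBE LEMMA (abstract). `Y` univalent on the disc, `Y 0 = f^t p`. `X 0 = p`, `f^t X = Y h`, loss at most the sum of `ℓ T` over the `T < t` with `f^(t-T)(0)` in the image of `Y`. -/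
theorem tube (hLR : MPS.LR_stmt) (hRMI : HY.RMI_stmt) (n : ℕ) (c : ℂ) (hn : 2 ≤ n) (t : ℕ) (Y : ℂ → ℂ) (hY : UV Y) (p : ℂ)
    (hp : (fz n c)^[t] p = Y 0) (REL : Finset ℕ) (hREL : ∀ T < t, (fz n c)^[t - T] 0 ∈ Y '' UD → T ∈ REL) (ℓ : ℕ → ℝ)
    (hℓ0 : ∀ T, 0 ≤ ℓ T)
    (hℓ : ∀ T < t, T ∈ REL → ∀ ψ : ℂ → ℂ, UV ψ → ψ 0 = 0 → (∀ y ∈ UD, (fz n c)^[t - T] (ψ y) ∈ Y '' UD) → ∀ y₀ ∈ UD,
      ψ y₀ = (fz n c)^[T] p → Real.exp (-(ℓ T)) ≤ kap n ‖y₀‖) :
    ∃ (X h : ℂ → ℂ), UV X ∧ X 0 = p ∧ DifferentiableOn ℂ h UD ∧ MapsTo h UD UD ∧ h 0 = 0 ∧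
      (∀ y ∈ UD, (fz n c)^[t] (X y) = Y (h y)) ∧ Real.exp (-(∑ T ∈ REL, ℓ T)) ≤ ‖deriv h 0‖ := by
  classical
  have h0 : (0 : ℂ) ∈ UD := by rw [ud]; simp
  -- induction downwards
  have key : ∀ m ≤ t, ∃ (X h : ℂ → ℂ), UV X ∧ X 0 = (fz n c)^[t - m] p ∧ DifferentiableOn ℂ h UD ∧ MapsTo h UD UD ∧ h 0 = 0 ∧
      (∀ y ∈ UD, (fz n c)^[m] (X y) = Y (h y)) ∧ Real.exp (-(∑ T ∈ REL.filter (fun T => t - m ≤ T), ℓ T)) ≤ ‖deriv h 0‖ := by
    intro m
    induction m with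
    | zero =>
      intro _
      refine ⟨Y, id, hY, by rw [Nat.sub_zero, hp], differentiableOn_id, fun y hy => hy, rfl, fun y _ => rfl, ?_⟩
      have : 0 ≤ ∑ T ∈ REL.filter (fun T => t - 0 ≤ T), ℓ T := Finset.sum_nonneg (fun T _ => hℓ0 T)
      simp only [deriv_id, norm_one]
      apply Real.exp_le_one_iff.2
      linarith
    | succ m ih =>
      intro hm
      obtain ⟨X, h, hX, hX0, hhd, hhm, hh0, hrel, hlos⟩ := ih (by omega)
      set T₁ := t - (m + 1) with hT₁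
      have hT1 : t - m = T₁ + 1 := by omega
      have hpX : fz n c ((fz n c)^[T₁] p) = X 0 := by
        rw [hX0, hT1, Function.iterate_succ_apply']
      obtain ⟨X', g, hX', hX'0, hgd, hgm, hg0, hgrel, hgl⟩ := step hLR hRMI n c hn X hX _ hpX
      have hder : deriv (fun y => h (g y)) 0 = deriv h 0 * deriv g 0 := by
        have h1 : HasDerivAt h (deriv h 0) (g 0) := by
          rw [hg0]; exact (hhd.differentiableAt (ud_open.mem_nhds h0)).hasDerivAt
        have h2 := (hgd.differentiableAt (ud_open.mem_nhds h0)).hasDerivAt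
        exact (HasDerivAt.comp (0 : ℂ) h1 h2).deriv
      refine ⟨X', fun y => h (g y), hX', hX'0, hhd.comp hgd hgm, fun y hy => hhm (hgm hy), ?_, ?_, ?_⟩
      · show h (g 0) = 0
        rw [hg0, hh0]
      · intro y hy
        rw [Function.iterate_succ_apply, hgrel y hy, hrel _ (hgm hy)]
      · rw [hder, norm_mul]
        have hfil : REL.filter (fun T => t - m ≤ T) ⊆ REL.filter (fun T => T₁ ≤ T) := by
          intro T hT
          rw [Finset.mem_filter] at hT ⊢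
          exact ⟨hT.1, by omega⟩
        rcases hgl with hg1 | ⟨q, hq, hXq, ψ, hψ, hψ0, hψV, y₀, hy₀, hψy, hgk⟩
        · rw [hg1, mul_one]
          refine le_trans ?_ hlos
          rw [Real.exp_le_exp, neg_le_neg_iff]
          exact Finset.sum_le_sum_of_subset_of_nonneg hfil (fun T _ _ => hℓ0 T)
        · have hTt : T₁ < t := by omega
          have htT : t - T₁ = m + 1 := by omega
          have hTR : T₁ ∈ REL := by
            apply hREL T₁ hTt
            rw [htT, Function.iterate_succ_apply]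
            have e1 : fz n c 0 = c := by
              unfold fz
              rw [zero_pow (by omega : n ≠ 0), zero_add]
            have e2 := hrel q hq
            rw [hXq] at e2
            rw [e1, e2]
            exact ⟨h q, hhm hq, rfl⟩
          have hk : Real.exp (-(ℓ T₁)) ≤ kap n ‖y₀‖ := by
            apply hℓ T₁ hTt hTR ψ hψ hψ0 _ y₀ hy₀ hψy
            intro y hy
            rw [htT, Function.iterate_succ_apply]
            obtain ⟨v, hv, hve⟩ := hψV y hy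
            rw [← hve, hrel v hv]
            exact ⟨h v, hhm hv, rfl⟩
          rw [hgk]
          have hfe : REL.filter (fun T => T₁ ≤ T) = insert T₁ (REL.filter (fun T => t - m ≤ T)) := by
            ext T
            simp only [Finset.mem_filter, Finset.mem_insert]
            constructor
            · rintro ⟨h1, h2⟩
              by_cases h3 : T = T₁
              · exact Or.inl h3
              · exact Or.inr ⟨h1, by omega⟩
            · rintro (h1 | ⟨h1, h2⟩)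
              · exact ⟨h1 ▸ hTR, by omega⟩
              · exact ⟨h1, by omega⟩
          have hni : T₁ ∉ REL.filter (fun T => t - m ≤ T) := by
            rw [Finset.mem_filter]
            push Not
            intro _
            omega
          rw [hfe, Finset.sum_insert hni, neg_add, add_comm, Real.exp_add]
          exact mul_le_mul hlos hk (Real.exp_pos _).le (norm_nonneg _)
  obtain ⟨X, h, hX, hX0, hhd, hhm, hh0, hrel, hlos⟩ := key t le_rfl
  refine ⟨X, h, hX, ?_, hhd, hhm, hh0, hrel, ?_⟩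
  · rw [hX0, Nat.sub_self]; rfl
  · refine le_trans ?_ hlos
    rw [Real.exp_le_exp, neg_le_neg_iff]
    exact Finset.sum_le_sum_of_subset_of_nonneg (Finset.filter_subset _ _) (fun T _ _ => hℓ0 T)

end DHX
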